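import Pool.Agent.K4H40.NS.Spec

set_option autoImplicit false

namespace Pool.Agent.K4H40.NS

open MvPolynomial Module

noncomputable section

theorem key : StKEY := by
  classical
  intro n k K _ I s hphi h hKP hJ
  by_contra hcon
  push Not at hcon
  obtain ⟨hKP1, hKP2⟩ := hKP
  -- choice of `A e`
  have hA : ∀ e : Fin n →₀ ℕ, ∃ a : R n K, (e.degree = k + 1 → a ∈ hs n K k ∧ monomial e (1 : K) - s.ω * a ∈ s.J) := by
    intro e
    by_cases he : e.degree = k + 1
    · obtain ⟨a, ha, ha2⟩ := hphi (monomial e (1 : K))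
        ((mem_homogeneousSubmodule (k + 1) _).2 (isHomogeneous_monomial 1 he))
      exact ⟨a, fun _ => ⟨ha, ha2⟩⟩
    · exact ⟨0, fun hh => absurd hh he⟩
  choose A hA using hA
  let Q := Ideal.Quotient.mkₐ K s.J
  let φ : R n K →ₗ[K] (R n K ⧸ s.J) := (basisMonomials (Fin n) K).constr K (fun e => Q (A e))
  have hφm : ∀ (e : Fin n →₀ ℕ), φ (monomial e 1) = Q (A e) := by
    intro e
    have := (basisMonomials (Fin n) K).constr_basis K (fun e => Q (A e)) e
    simpa [φ, coe_basisMonomials] using this
  -- chosen element of the support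
  let T : (Fin n →₀ ℕ) → (R n K ⧸ s.J) := fun e =>
    if hh : ∃ l, e l ≠ 0 then Q (X hh.choose * A (e - Finsupp.single hh.choose 1)) else 0
  let Φ : R n K →ₗ[K] (R n K ⧸ s.J) := (basisMonomials (Fin n) K).constr K T
  have hΦm : ∀ (e : Fin n →₀ ℕ), Φ (monomial e 1) = T e := by
    intro e
    have := (basisMonomials (Fin n) K).constr_basis K T e
    simpa [Φ, coe_basisMonomials] using this
  have hQ : ∀ a b : R n K, a - b ∈ s.J → Q a = Q b := by
    intro a b hab
    exact Ideal.Quotient.eq.2 hab
  -- claim 1
  have h1 : ∀ (e : Fin n →₀ ℕ) (l : Fin n), e.degree = k + 1 → Φ (X l * monomial e 1) = Q (X l * A e) := by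
    intro e l he
    have hm : (X l * monomial e (1 : K) : R n K) = monomial (e + Finsupp.single l 1) 1 := by
      rw [X, monomial_mul, add_comm, one_mul]
    rw [hm, hΦm]
    have hh : ∃ l', (e + Finsupp.single l (1 : ℕ) : Fin n →₀ ℕ) l' ≠ 0 := ⟨l, by simp⟩
    have hT : T (e + Finsupp.single l 1) = Q (X hh.choose * A (e + Finsupp.single l 1 - Finsupp.single hh.choose 1)) := by
      simp only [T]
      rw [dif_pos hh]
    rw [hT]
    have hc := hh.choose_spec
    generalize hh.choose = l' at hc ⊢
    by_cases hll : l' = l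
    · subst hll
      rw [add_tsub_cancel_right]
    · have he' : e l' ≠ 0 := by
        rw [Finsupp.add_apply, Finsupp.single_apply, if_neg (fun h => hll h.symm), add_zero] at hc
        exact hc
      obtain ⟨e', rfl⟩ : ∃ e', e = e' + Finsupp.single l' 1 := by
        refine ⟨e - Finsupp.single l' 1, ?_⟩
        rw [tsub_add_cancel_of_le]
        rw [Finsupp.single_le_iff]
        omega
      have hd : e'.degree = k := by
        rw [map_add, Finsupp.degree_single] at he
        omega
      have hx : e' + Finsupp.single l' 1 + Finsupp.single l 1 - Finsupp.single l' 1 = e' + Finsupp.single l 1 := by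
        rw [add_right_comm, add_tsub_cancel_right]
      rw [hx]
      have hA1 := hA (e' + Finsupp.single l 1) (by rw [map_add, Finsupp.degree_single, hd])
      have hA2 := hA (e' + Finsupp.single l' 1) he
      have hX : ∀ i : Fin n, (X i : R n K) ∈ hs n K 1 := fun i =>
        (mem_homogeneousSubmodule 1 _).2 (isHomogeneous_X K i)
      have hg : (monomial e' (1 : K)) ∈ hs n K k :=
        (mem_homogeneousSubmodule k _).2 (isHomogeneous_monomial 1 hd)
      have hmm : ∀ i : Fin n, (X i * monomial e' (1 : K) : R n K) = monomial (e' + Finsupp.single i 1) 1 := by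
        intro i
        rw [X, monomial_mul, add_comm, one_mul]
      apply hQ
      refine hcon (X l') (hX l') (X l) (hX l) (monomial e' 1) hg _ hA1.1 _ hA2.1 ?_ ?_
      · rw [hmm]; exact hA1.2
      · rw [hmm]; exact hA2.2
  -- value of φ
  have h2 : ∀ f ∈ hs n K (k + 1), ∀ a ∈ hs n K k, f - s.ω * a ∈ s.J → φ f = Q a := by
    intro f hf a ha hfa
    have hf' := (mem_homogeneousSubmodule (k + 1) _).1 hf
    let a' : R n K := ∑ e ∈ f.support, C (coeff e f) * A e
    have hdeg : ∀ e ∈ f.support, e.degree = k + 1 := by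
      intro e he
      have := hf' (mem_support_iff.1 he)
      rw [Finsupp.degree_eq_weight_one]
      exact this
    have ha' : a' ∈ hs n K k := by
      refine Submodule.sum_mem _ fun e he => ?_
      rw [← smul_eq_C_mul]
      exact Submodule.smul_mem _ _ (hA e (hdeg e he)).1
    have hφf : φ f = Q a' := by
      conv_lhs => rw [f.as_sum]
      rw [map_sum]
      simp only [a']
      rw [map_sum]
      refine Finset.sum_congr rfl fun e he => ?_
      have : (monomial e (coeff e f) : R n K) = (coeff e f) • monomial e (1 : K) := by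
        rw [smul_monomial, smul_eq_mul, mul_one]
      rw [this, map_smul, hφm, ← smul_eq_C_mul, map_smul]
    have hfa' : f - s.ω * a' ∈ s.J := by
      have : f - s.ω * a' = ∑ e ∈ f.support, C (coeff e f) * (monomial e (1 : K) - s.ω * A e) := by
        conv_lhs => rw [f.as_sum]
        simp only [a']
        rw [Finset.mul_sum, ← Finset.sum_sub_distrib]
        refine Finset.sum_congr rfl fun e he => ?_
        rw [mul_sub, C_mul_monomial, mul_one]
        ring
      rw [this]
      exact Ideal.sum_mem _ fun e he => Ideal.mul_mem_left _ _ (hA e (hdeg e he)).2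
    rw [hφf]
    apply hQ
    apply s.lefschetz _ (Submodule.sub_mem _ ha' ha)
    have : s.ω * (a' - a) = (f - s.ω * a) - (f - s.ω * a') := by ring
    rw [this]
    exact Ideal.sub_mem _ hfa hfa'
  -- claim 2
  have h3 : ∀ x ∈ hs n K 1, ∀ f ∈ hs n K (k + 1), Φ (x * f) = Q x * φ f := by
    intro x hx f hf
    have hf' := (mem_homogeneousSubmodule (k + 1) _).1 hf
    have hdeg : ∀ e ∈ f.support, e.degree = k + 1 := by
      intro e he
      have := hf' (mem_support_iff.1 he)
      rw [Finsupp.degree_eq_weight_one]
      exact this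
    have hXl : ∀ l : Fin n, Φ (X l * f) = Q (X l) * φ f := by
      intro l
      conv_lhs => rw [f.as_sum]
      conv_rhs => rw [f.as_sum]
      rw [Finset.mul_sum, map_sum, map_sum, Finset.mul_sum]
      refine Finset.sum_congr rfl fun e he => ?_
      have : (monomial e (coeff e f) : R n K) = (coeff e f) • monomial e (1 : K) := by
        rw [smul_monomial, smul_eq_mul, mul_one]
      rw [this, mul_smul_comm, map_smul, map_smul, h1 e l (hdeg e he), hφm, mul_smul_comm, map_mul]
    have hx' : x ∈ Submodule.span K (Set.range (X : Fin n → R n K)) := by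
      rw [← homogeneousSubmodule_one_eq_span_X]; exact hx
    clear hx
    induction hx' using Submodule.span_induction with
    | mem x hx => rcases hx with ⟨l, rfl⟩; exact hXl l
    | zero => simp
    | add x y _ _ hx hy => rw [add_mul, map_add, hx, hy, map_add, add_mul]
    | smul c x _ hx => rw [smul_mul_assoc, map_smul, hx, map_smul, smul_mul_assoc]
  -- Φ vanishes on P
  have h4 : ∀ p ∈ s.P, Φ p = 0 := by
    intro p hp
    have hle : s.P ≤ LinearMap.ker Φ := by
      refine sup_le ?_ ?_
      · refine Submodule.span_le.2 ?_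
        rintro _ ⟨x, hx, f, hf, rfl⟩
        have hfJ : f ∈ s.J := Ideal.mem_sup_left hf.1
        have hφ0 : φ f = 0 := by
          rw [h2 f hf.2 0 (Submodule.zero_mem _) (by simpa using hfJ), map_zero]
        change Φ (x * f) = 0
        rw [h3 x hx f hf.2, hφ0, mul_zero]
      · refine Submodule.span_le.2 ?_
        rintro _ ⟨i, f, hf, rfl⟩
        change Φ (s.θ i * f) = 0
        rw [h3 _ (s.θ_lin i) f hf]
        have : Q (s.θ i) = 0 := Ideal.Quotient.eq_zero_iff_mem.2
          (Ideal.mem_sup_right (Ideal.subset_span ⟨i, rfl⟩))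
        rw [this, zero_mul]
    exact hle hp
  obtain ⟨a, ha, hha⟩ := hphi h hKP2
  have h5 : Φ (s.ω * h) = 0 := h4 _ hKP1
  rw [h3 _ s.ω_lin h hKP2, h2 h hKP2 a ha hha, ← map_mul, ← hQ h _ hha] at h5
  exact hJ (Ideal.Quotient.eq_zero_iff_mem.1 h5)

end

end Pool.Agent.K4H40.NS
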